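import Pool.Agent.H13.Fact

set_option autoImplicit false
open Finset

namespace Pool.Agent.Results.MP_3f0bb6_co.Exists

def IsPM {V : Type} (m : V → V) : Prop := (∀ x, m (m x) = x) ∧ ∀ x, m x ≠ x

theorem result (N : ℕ) : ∃ (n : ℕ) (V : Type) (_ : Fintype V) (D : Set (V → V)) (c : ℕ),
    N ≤ n ∧ 6 ≤ n ∧ Fintype.card V = 2 * n ∧ (∀ m ∈ D, IsPM m) ∧ D.Nonempty ∧
      D ≠ {m | IsPM m} ∧ 0 < c ∧ ∀ S : Finset V, S.card = 6 →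
        {m ∈ D | ∀ x ∈ S, m x ∈ S}.ncard = c := by
  classical
  obtain ⟨j, hj, h⟩ := H13.Fact.main 6 (N + 6)
  obtain ⟨D, d1, ⟨u, hu⟩, ⟨w, d2, d3⟩, d4⟩ := h
    (fun m t => ∀ x ∈ Set.range t, m x ∈ Set.range t)
    (fun g m t k => by
      rintro _ ⟨i, rfl⟩
      obtain ⟨l, e⟩ := k _ ⟨i, rfl⟩
      exact ⟨l, by simp [H13.Fact.cj, e]⟩)
  have l : j < 2 ^ j := Nat.lt_two_pow_self
  obtain ⟨x, y, z, k⟩ := H13.Fact.three (by rw [H13.Fact.cardW]; omega) u (d1 u hu).1 (d1 u hu).2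
  refine ⟨2 * 2 ^ j, H13.Fact.W j, inferInstance, D,
    #{m ∈ D | ∀ v ∈ Set.range ![x, u x, y, u y, z, u z], m v ∈ Set.range ![x, u x, y, u y, z, u z]},
    by omega, by omega, H13.Fact.cardW j, d1, ⟨u, hu⟩, fun e => d3 (e.superset d2),
    card_pos.2 ⟨u, mem_filter.2 ⟨hu, ?_⟩⟩, fun S hS => ?_⟩
  · rintro _ ⟨i, rfl⟩
    fin_cases i
    exacts [⟨1, rfl⟩, ⟨0, ((d1 u hu).1 x).symm⟩, ⟨3, rfl⟩, ⟨2, ((d1 u hu).1 y).symm⟩, ⟨5, rfl⟩,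
      ⟨4, ((d1 u hu).1 z).symm⟩]
  have := d4 (Subtype.val ∘ (S.equivFinOfCardEq hS).symm) _
    (Subtype.val_injective.comp (Equiv.injective _)) k
  refine Eq.trans ?_ (this.trans (by convert rfl))
  rw [← Set.ncard_coe_finset, (Equiv.surjective _).range_comp]
  congr 1
  ext m
  simp

end Pool.Agent.Results.MP_3f0bb6_co.Exists
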